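import Pool.Agent.Q150.TP.ASM
import Pool.Agent.Q17.TC.All
import Pool.Agent.Q18.K.Tw

/-!
# Project TP, job CNT: the number of fixed characters
-/

set_option autoImplicit false
set_option linter.style.haveILetI false
set_option linter.unusedSectionVars false

open scoped Classical

noncomputable section

namespace Pool.Agent.Q150.TP

open Pool.Agent.Helper884
open Pool.Agent.H254R3.IN (IsIrr IsCl Om)
open Pool.Agent.Y63.KR Pool.Agent.Q17.WR Pool.Agent.Q17.TP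
open Pool.Agent.Q17.TC (Ov Lf t_LFT restr gal_char)

section tools

variable {H : Type} [Group H] [Fintype H]

/-- second orthogonality -/
theorem second' (a b : H) :
    ∑ ψ ∈ IC.Irr H, ψ a * ψ b = ∑ h : H, if h * a * h⁻¹ = b⁻¹ then (1 : ℂ) else 0 := by
  obtain ⟨f, hfdef⟩ : ∃ f : H → ℂ, f = fun x => ∑ h : H, if h * x * h⁻¹ = b⁻¹ then (1 : ℂ) else 0 :=
    ⟨_, rfl⟩
  have hf : IC.IsClass f := by
    intro x y
    rw [hfdef]
    refine Fintype.sum_equiv (Equiv.mulRight y) _ _ fun h => ?_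
    simp only [Equiv.coe_mulRight, mul_inv_rev, mul_assoc]
  have h1 := congrFun (IC.expand f hf) a
  have h0 : f a = ∑ h : H, if h * a * h⁻¹ = b⁻¹ then (1 : ℂ) else 0 := by rw [hfdef]
  rw [← h0, h1, Finset.sum_apply]
  refine Finset.sum_congr rfl fun ψ hψ => ?_
  rw [Pi.smul_apply, smul_eq_mul, mul_comm]
  congr 1
  have hψ' : IsIrr ψ := IC.mem_Irr.1 hψ
  rw [IC.B, hfdef]
  simp only [Finset.sum_mul]
  rw [Finset.sum_comm]
  have h2 : ∀ h : H, ∑ g : H, (if h * g * h⁻¹ = b⁻¹ then (1 : ℂ) else 0) * ψ g⁻¹ = ψ b := by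
    intro h
    rw [Finset.sum_eq_single (h⁻¹ * b⁻¹ * h)]
    · have e1 : h * (h⁻¹ * b⁻¹ * h) * h⁻¹ = b⁻¹ := by group
      rw [if_pos e1, one_mul]
      have e2 : (h⁻¹ * b⁻¹ * h)⁻¹ = h⁻¹ * b * h⁻¹⁻¹ := by group
      rw [e2, hψ'.conj]
    · intro g _ hg
      rw [if_neg, zero_mul]
      intro h3
      apply hg
      rw [← h3]
      group
    · intro h3
      exact absurd (Finset.mem_univ _) h3
  rw [Finset.sum_congr rfl fun h _ => h2 h, Finset.sum_const, Finset.card_univ, nsmul_eq_mul,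
    ← Nat.card_eq_fintype_card, ← mul_assoc, inv_mul_cancel₀ IC.cardG_ne, one_mul]

variable {M : Subgroup H} [M.Normal] {θ : M → ℂ}

theorem ez_conj' (hinv : ∀ (g : H) (n : M), θ (MulAut.conjNormal g n) = θ n) (g y : H) :
    ez θ (g * y * g⁻¹) = ez θ y := by
  refine ez_conj (G := ⊤) ?_ (Subgroup.mem_top g) y
  intro g _ n n' hn
  rw [← hinv g n]
  congr 1
  apply Subtype.ext
  rw [hn, MulAut.conjNormal_apply]

theorem proj (hθ : IsIrr θ) (hinv : ∀ (g : H) (n : M), θ (MulAut.conjNormal g n) = θ n)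
    (ψ : H → ℂ) (hψ : IsIrr ψ) (g : H) :
    ∑ x : H, (θ 1 / (Nat.card M : ℂ) * ez θ x⁻¹) * ψ (x * g) = if Ov M ψ θ then ψ g else 0 := by
  have hcl : IsCl (fun x : H => θ 1 / (Nat.card M : ℂ) * ez θ x⁻¹) := by
    intro x y
    simp only
    have e1 : (y * x * y⁻¹)⁻¹ = y * x⁻¹ * y⁻¹ := by group
    rw [e1, ez_conj' hinv]
  have h1 := Pool.Agent.Y62.conv_scalar hψ hcl g
  rw [h1]
  have h2 : ∑ x : H, (θ 1 / (Nat.card M : ℂ) * ez θ x⁻¹) * ψ x =
      θ 1 * IC.B (fun n : M => ψ n) θ := by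
    unfold IC.B
    rw [← mul_assoc, Finset.mul_sum, div_eq_mul_inv]
    symm
    refine Finset.sum_of_injOn (fun n : M => (n : H)) Subtype.val_injective.injOn ?_ ?_ ?_
    · intro n _
      exact Finset.mem_coe.2 (Finset.mem_univ _)
    · intro x _ hx
      unfold ez
      rw [dif_neg, mul_zero, zero_mul]
      intro h3
      apply hx
      have h4 : x ∈ M := by
        have := M.inv_mem h3
        rwa [inv_inv] at this
      exact ⟨⟨x, h4⟩, by simp, rfl⟩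
    · intro n _
      have h3 : ez θ ((n : H)⁻¹) = θ n⁻¹ := by
        unfold ez
        rw [dif_pos (M.inv_mem n.2)]
        rfl
      rw [h3]
      ring
  unfold Om
  rw [h2]
  by_cases hO : Ov M ψ θ
  · rw [if_pos hO]
    obtain ⟨W, i1, i2, i3, ρ, hρ, rfl⟩ := hθ
    obtain ⟨e, he, h3, h4⟩ := restr hρ (fun g => t_LFT H W M ρ hρ g (hinv g)) hψ hO
    rw [h4]
    have h5 := h3 1
    rw [Subgroup.coe_one] at h5
    rw [h5]
    have h6 : ρ.character 1 ≠ 0 :=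
      Pool.Agent.H254R3.IN.IsIrr.one_ne (χ := ρ.character) ⟨W, i1, i2, i3, ρ, hρ, rfl⟩
    have h7 : (e : ℂ) ≠ 0 := by exact_mod_cast he.ne'
    have h8 : ρ.character 1 * (e : ℂ) / ((e : ℂ) * ρ.character 1) = 1 := by
      rw [mul_comm]
      exact div_self (mul_ne_zero h7 h6)
    rw [h8, one_mul]
  · rw [if_neg hO]
    unfold Ov at hO
    push Not at hO
    rw [hO, mul_zero, zero_div, zero_mul]

theorem sum_ov (hθ : IsIrr θ) (hinv : ∀ (g : H) (n : M), θ (MulAut.conjNormal g n) = θ n)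
    (a b : H) : ∑ ψ ∈ (IC.Irr H).filter (fun ψ => Ov M ψ θ), ψ a * ψ b =
      ∑ h : H, θ 1 / (Nat.card M : ℂ) * ez θ (a * (h⁻¹ * b * h)) := by
  rw [Finset.sum_filter]
  have h1 : ∀ ψ ∈ IC.Irr H, (if Ov M ψ θ then ψ a * ψ b else 0) =
      ∑ x : H, (θ 1 / (Nat.card M : ℂ) * ez θ x⁻¹) * (ψ (x * a) * ψ b) := by
    intro ψ hψ
    have h2 := proj hθ hinv ψ (IC.mem_Irr.1 hψ) a
    have h3 : ∑ x : H, (θ 1 / (Nat.card M : ℂ) * ez θ x⁻¹) * (ψ (x * a) * ψ b) =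
        (∑ x : H, (θ 1 / (Nat.card M : ℂ) * ez θ x⁻¹) * ψ (x * a)) * ψ b := by
      rw [Finset.sum_mul]
      exact Finset.sum_congr rfl fun x _ => by ring
    rw [h3, h2]
    split_ifs
    · rfl
    · rw [zero_mul]
  rw [Finset.sum_congr rfl h1, Finset.sum_comm]
  have h2 : ∀ x : H, ∑ ψ ∈ IC.Irr H, (θ 1 / (Nat.card M : ℂ) * ez θ x⁻¹) * (ψ (x * a) * ψ b) =
      ∑ h : H, (θ 1 / (Nat.card M : ℂ) * ez θ x⁻¹) *
        (if h * (x * a) * h⁻¹ = b⁻¹ then (1 : ℂ) else 0) := by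
    intro x
    rw [← Finset.mul_sum, second', Finset.mul_sum]
  rw [Finset.sum_congr rfl fun x _ => h2 x, Finset.sum_comm]
  refine Finset.sum_congr rfl fun h _ => ?_
  rw [Finset.sum_eq_single (h⁻¹ * b⁻¹ * h * a⁻¹)]
  · have e1 : h * (h⁻¹ * b⁻¹ * h * a⁻¹ * a) * h⁻¹ = b⁻¹ := by group
    have e2 : (h⁻¹ * b⁻¹ * h * a⁻¹)⁻¹ = a * (h⁻¹ * b * h) := by group
    rw [if_pos e1, mul_one, e2]
  · intro x _ hx
    rw [if_neg, mul_zero]
    intro h3
    apply hx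
    rw [← h3]
    group
  · intro h3
    exact absurd (Finset.mem_univ _) h3

/-- the number of the characters over `θ` fixed by a semilinear automorphism -/
theorem count_fixed (hθ : IsIrr θ) (hinv : ∀ (g : H) (n : M), θ (MulAut.conjNormal g n) = θ n)
    (s : ℂ ≃+* ℂ) (m k : ℕ) (hk : ∀ x : H, x ^ k = 1) (hs : ∀ ζ : ℂ, ζ ^ k = 1 → s ζ = ζ ^ m)
    (α : H ≃* H) :
    (Nat.card H : ℂ) * ((((IC.Irr H).filter (fun ψ => Ov M ψ θ)).filter
      (fun ψ => (fun x => s (ψ (α x))) = ψ)).card : ℂ) =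
      ∑ x : H, ∑ h : H, θ 1 / (Nat.card M : ℂ) * ez θ (α (x ^ m) * (h⁻¹ * x⁻¹ * h)) := by
  have h1 : ((((IC.Irr H).filter (fun ψ => Ov M ψ θ)).filter
      (fun ψ => (fun x => s (ψ (α x))) = ψ)).card : ℂ) =
      ∑ ψ ∈ (IC.Irr H).filter (fun ψ => Ov M ψ θ), IC.B (fun x => s (ψ (α x))) ψ := by
    rw [Finset.card_filter, Nat.cast_sum]
    refine Finset.sum_congr rfl fun ψ hψ => ?_
    have hψ' : IsIrr ψ := IC.mem_Irr.1 (Finset.mem_filter.1 hψ).1
    have h2 : IC.IsIrrChar (fun x => s (ψ (α x))) :=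
      Pool.Agent.Q18.K.irr_gal s (Pool.Agent.Y62.irr_comp hψ' α)
    rw [IC.B_irr h2 hψ', Nat.cast_ite, Nat.cast_one, Nat.cast_zero]
  rw [h1]
  have h2 : ∀ ψ ∈ (IC.Irr H).filter (fun ψ => Ov M ψ θ), IC.B (fun x => s (ψ (α x))) ψ =
      (Nat.card H : ℂ)⁻¹ * ∑ x : H, ψ (α (x ^ m)) * ψ x⁻¹ := by
    intro ψ hψ
    have hψ' : IsIrr ψ := IC.mem_Irr.1 (Finset.mem_filter.1 hψ).1
    unfold IC.B
    congr 1
    refine Finset.sum_congr rfl fun x _ => ?_
    change s (ψ (α x)) * ψ x⁻¹ = _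
    rw [gal_char hs hψ' (hk (α x)), map_pow]
  rw [Finset.sum_congr rfl h2, ← Finset.mul_sum, ← mul_assoc, mul_inv_cancel₀ IC.cardG_ne,
    one_mul, Finset.sum_comm]
  exact Finset.sum_congr rfl fun x _ => sum_ov hθ hinv _ _

end tools

section main

variable {E : Type} [Group E] [Fintype E] {G N : Subgroup E} [G.Normal] [N.Normal]

/-- conjugation by an element which stabilises the chain -/
def cH (σ : Set (Subgroup (E ⧸ N))) (t : E) (ht : (t : E ⧸ N) ∈ chainStabilizer σ) :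
    GS G N σ ≃* GS G N σ where
  toFun x := ⟨t * x * t⁻¹, (inferInstance : G.Normal).conj_mem _ x.2.1 t, by
    change ((t * (x : E) * t⁻¹ : E) : E ⧸ N) ∈ chainStabilizer σ
    rw [QuotientGroup.mk_mul, QuotientGroup.mk_mul, QuotientGroup.mk_inv]
    exact (chainStabilizer σ).mul_mem ((chainStabilizer σ).mul_mem ht x.2.2)
      ((chainStabilizer σ).inv_mem ht)⟩
  invFun x := ⟨t⁻¹ * x * t, by
    have := (inferInstance : G.Normal).conj_mem _ x.2.1 t⁻¹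
    rwa [inv_inv] at this, by
    change ((t⁻¹ * (x : E) * t : E) : E ⧸ N) ∈ chainStabilizer σ
    rw [QuotientGroup.mk_mul, QuotientGroup.mk_mul, QuotientGroup.mk_inv]
    exact (chainStabilizer σ).mul_mem ((chainStabilizer σ).mul_mem
      ((chainStabilizer σ).inv_mem ht) x.2.2) ht⟩
  left_inv x := Subtype.ext (by
    change t⁻¹ * (t * (x : E) * t⁻¹) * t = x
    group)
  right_inv x := Subtype.ext (by
    change t * (t⁻¹ * (x : E) * t) * t⁻¹ = x
    group)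
  map_mul' x y := Subtype.ext (by
    change t * ((x : E) * y) * t⁻¹ = (t * x * t⁻¹) * (t * y * t⁻¹)
    group)

theorem N_le_GS (hNG : N ≤ G) (σ : Set (Subgroup (E ⧸ N))) : N ≤ GS G N σ := by
  intro n hn
  refine ⟨hNG hn, ?_⟩
  change ((n : E) : E ⧸ N) ∈ chainStabilizer σ
  rw [(QuotientGroup.eq_one_iff n).2 hn]
  exact one_mem _

theorem sub_equiv_card (hNG : N ≤ G) (σ : Set (Subgroup (E ⧸ N))) :
    Nat.card (N.subgroupOf (GS G N σ)) = Nat.card N :=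
  Nat.card_congr (Subgroup.subgroupOfEquivOfLe (N_le_GS hNG σ)).toEquiv

/-- the restriction of `θ` -/
def thS (θ : N → ℂ) (σ : Set (Subgroup (E ⧸ N))) (n : N.subgroupOf (GS G N σ)) : ℂ :=
  θ ⟨((n : GS G N σ) : E), n.2⟩

theorem ez_thS (θ : N → ℂ) (σ : Set (Subgroup (E ⧸ N))) (y : GS G N σ) :
    ez (thS (G := G) θ σ) y = ez θ (y : E) := by
  unfold ez
  by_cases h : (y : E) ∈ N
  · rw [dif_pos h, dif_pos (show y ∈ N.subgroupOf (GS G N σ) from h)]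
    rfl
  · rw [dif_neg h, dif_neg (show ¬ y ∈ N.subgroupOf (GS G N σ) from h)]

theorem ovS_iff (hNG : N ≤ G) (θ : N → ℂ) (σ : Set (Subgroup (E ⧸ N))) (ψ : GS G N σ → ℂ) :
    OvS N θ ψ ↔ Ov (N.subgroupOf (GS G N σ)) ψ (thS (G := G) θ σ) := by
  unfold OvS Ov IC.B
  rw [finsum_eq_sum_of_fintype]
  have h1 : ∑ n : N, (if h : (n : E) ∈ GS G N σ then ψ ⟨n, h⟩ else 0) * θ n⁻¹ =
      ∑ g : N.subgroupOf (GS G N σ), ψ g * thS (G := G) θ σ g⁻¹ := by
    refine Fintype.sum_equiv (Subgroup.subgroupOfEquivOfLe (N_le_GS hNG σ)).toEquiv.symm _ _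
      fun n => ?_
    rw [dif_pos (N_le_GS hNG σ n.2)]
    rfl
  rw [h1]
  have h2 : ((Nat.card (N.subgroupOf (GS G N σ)) : ℕ) : ℂ)⁻¹ ≠ 0 :=
    inv_ne_zero (by exact_mod_cast Nat.card_pos.ne')
  constructor
  · intro h
    exact mul_ne_zero h2 h
  · intro h
    exact right_ne_zero_of_mul h

theorem thS_irr (hNG : N ≤ G) {θ : N → ℂ} (hθ : IsIrr θ) (σ : Set (Subgroup (E ⧸ N))) :
    IsIrr (thS (G := G) θ σ) :=
  Pool.Agent.Y62.irr_comp hθ (Subgroup.subgroupOfEquivOfLe (N_le_GS hNG σ))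

theorem fixBy_iff (θ : N → ℂ) (e : E) (s : ℂ ≃+* ℂ) (σ : Set (Subgroup (E ⧸ N)))
    (ψ : GS G N σ → ℂ) (hψ : IsIrr ψ) (t₀ : E) (h1 : t₀ * e⁻¹ ∈ G)
    (h2 : (t₀ : E ⧸ N) ∈ chainStabilizer σ) :
    FixBy G N e s ψ ↔ (fun x => s (ψ (cH σ t₀ h2 x))) = ψ := by
  constructor
  · rintro ⟨t, ht1, ht2, h3⟩
    funext x
    have h4 : t * t₀⁻¹ ∈ GS G N σ := by
      refine ⟨?_, ?_⟩
      · have := G.mul_mem ht1 (G.inv_mem h1)
        have e1 : t * e⁻¹ * (t₀ * e⁻¹)⁻¹ = t * t₀⁻¹ := by group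
        rwa [e1] at this
      · change ((t * t₀⁻¹ : E) : E ⧸ N) ∈ chainStabilizer σ
        rw [QuotientGroup.mk_mul, QuotientGroup.mk_inv]
        exact (chainStabilizer σ).mul_mem ht2 ((chainStabilizer σ).inv_mem h2)
    have h5 := h3 x ((⟨_, h4⟩ : GS G N σ) * cH σ t₀ h2 x * (⟨_, h4⟩ : GS G N σ)⁻¹) (by
      change t * t₀⁻¹ * (t₀ * (x : E) * t₀⁻¹) * (t * t₀⁻¹)⁻¹ = t * x * t⁻¹
      group)
    rw [hψ.conj] at h5
    exact h5
  · intro h
    refine ⟨t₀, h1, h2, fun x y hy => ?_⟩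
    have h3 := congrFun h x
    have h4 : cH σ t₀ h2 x = y := Subtype.ext hy.symm
    simp only [h4] at h3
    exact h3

theorem t_CNT : S_CNT := by
  intro E _ _ G N _ _ hNG θ hθ hθG s m hs e he σ
  by_cases hne : ∃ t₀ : E, t₀ * e⁻¹ ∈ G ∧ (t₀ : E ⧸ N) ∈ chainStabilizer σ
  swap
  · -- no element
    push Not at hne
    have h1 : wQ G N θ e s σ = 0 := by
      unfold wQ
      have : IsEmpty {ψ : GS G N σ → ℂ // IsIrr ψ ∧ OvS N θ ψ ∧ FixBy G N e s ψ} := by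
        refine ⟨fun ψ => ?_⟩
        obtain ⟨t, h1, h2, -⟩ := ψ.2.2.2
        exact hne t h1 h2
      exact Nat.card_of_isEmpty
    rw [h1, Nat.cast_zero, mul_zero]
    symm
    apply Finset.sum_eq_zero
    intro z _
    rw [if_neg (fun h => hne z h.1 h.2)]
  obtain ⟨t₀, ht1, ht2⟩ := hne
  have hinv : ∀ (g : GS G N σ) (n : N.subgroupOf (GS G N σ)),
      thS (G := G) θ σ (MulAut.conjNormal g n) = thS (G := G) θ σ n := by
    intro g n
    unfold thS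
    apply hθG (g : E) g.2.1
    exact congrArg (fun y : GS G N σ => (y : E)) (MulAut.conjNormal_apply g n)
  have hw : wQ G N θ e s σ = (((IC.Irr (GS G N σ)).filter
      (fun ψ => Ov (N.subgroupOf (GS G N σ)) ψ (thS (G := G) θ σ))).filter
      (fun ψ => (fun x => s (ψ (cH σ t₀ ht2 x))) = ψ)).card := by
    unfold wQ
    rw [Nat.subtype_card]
    intro ψ
    rw [Finset.mem_filter, Finset.mem_filter, IC.mem_Irr]
    constructor
    · rintro ⟨⟨h1, h2⟩, h3⟩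
      exact ⟨h1, (ovS_iff hNG θ σ ψ).2 h2, (fixBy_iff θ e s σ ψ h1 t₀ ht1 ht2).2 h3⟩
    · rintro ⟨h1, h2, h3⟩
      exact ⟨⟨h1, (ovS_iff hNG θ σ ψ).1 h2⟩, (fixBy_iff θ e s σ ψ h1 t₀ ht1 ht2).1 h3⟩
  have hk : ∀ x : GS G N σ, x ^ Nat.card E = 1 := by
    intro x
    apply Subtype.ext
    rw [Subgroup.coe_pow, Subgroup.coe_one, Nat.card_eq_fintype_card, pow_card_eq_one]
  rw [hw, count_fixed (thS_irr hNG hθ σ) hinv s m (Nat.card E) hk hs, sub_equiv_card hNG σ]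
  -- the right side
  have h1 : ∀ x h : GS G N σ, thS (G := G) θ σ 1 / (Nat.card N : ℂ) *
      ez (thS (G := G) θ σ) (cH σ t₀ ht2 (x ^ m) * (h⁻¹ * x⁻¹ * h)) =
      FF N θ m x ((h : E) * t₀) := by
    intro x h
    rw [FF_eq, ez_thS]
    congr 1
    have e1 : ((cH σ t₀ ht2 (x ^ m) * (h⁻¹ * x⁻¹ * h) : GS G N σ) : E) =
        t₀ * (x : E) ^ m * t₀⁻¹ * ((h : E)⁻¹ * (x : E)⁻¹ * h) := rfl
    rw [e1, ← ez_conj hθG (show (x : E)⁻¹ * (h : E) ∈ G from
      G.mul_mem (G.inv_mem x.2.1) h.2.1)]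
    congr 1
    group
  simp only [h1]
  have h2 : ∑ z : E, (if z * e⁻¹ ∈ G ∧ (z : E ⧸ N) ∈ chainStabilizer σ then
      ∑ x : E, (if x ∈ GS G N σ then FF N θ m x z else 0) else 0) =
      ∑ h : GS G N σ, ∑ x : GS G N σ, FF N θ m x ((h : E) * t₀) := by
    rw [← Finset.sum_filter]
    symm
    refine Finset.sum_bij (fun h _ => (h : E) * t₀) ?_ ?_ ?_ ?_
    · intro h _
      rw [Finset.mem_filter]
      refine ⟨Finset.mem_univ _, ?_, ?_⟩
      · rw [mul_assoc]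
        exact G.mul_mem h.2.1 ht1
      · rw [QuotientGroup.mk_mul]
        exact (chainStabilizer σ).mul_mem h.2.2 ht2
    · intro h _ h' _ hh
      exact Subtype.ext (mul_right_cancel hh)
    · intro z hz
      rw [Finset.mem_filter] at hz
      obtain ⟨-, hz1, hz2⟩ := hz
      refine ⟨⟨z * t₀⁻¹, ?_, ?_⟩, Finset.mem_univ _, inv_mul_cancel_right _ _⟩
      · have := G.mul_mem hz1 (G.inv_mem ht1)
        have e1 : z * e⁻¹ * (t₀ * e⁻¹)⁻¹ = z * t₀⁻¹ := by group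
        rwa [e1] at this
      · change ((z * t₀⁻¹ : E) : E ⧸ N) ∈ chainStabilizer σ
        rw [QuotientGroup.mk_mul, QuotientGroup.mk_inv]
        exact (chainStabilizer σ).mul_mem hz2 ((chainStabilizer σ).inv_mem ht2)
    · intro h _
      rw [← Finset.sum_filter]
      refine Finset.sum_bij (fun x _ => (x : E)) ?_ ?_ ?_ ?_
      · intro x _
        rw [Finset.mem_filter]
        exact ⟨Finset.mem_univ _, x.2⟩
      · intro x _ x' _ hx
        exact Subtype.ext hx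
      · intro x hx
        rw [Finset.mem_filter] at hx
        exact ⟨⟨x, hx.2⟩, Finset.mem_univ _, rfl⟩
      · intro x _
        rfl
  rw [h2, Finset.sum_comm]

end main

end Pool.Agent.Q150.TP
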