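import Pool.Agent.Q150.TP.ASM
import Pool.Agent.Q17.TC.All
import Pool.Agent.Q18.K.Tw

/-!
# Project TP, job COS: the sum over two cosets
-/

set_option autoImplicit false
set_option linter.style.haveILetI false
set_option linter.unusedSectionVars false

open scoped Classical

noncomputable section

namespace Pool.Agent.Q150.TP

open Pool.Agent.H254R3.IN (IsIrr)
open Pool.Agent.Y63.KR Pool.Agent.Q17.WR Pool.Agent.Q17.TP

section abs

variable {E U : Type} [Group E] [Group U] {N : Subgroup E} [N.Normal] (r : N →* U)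

/-- `u` is a lift of `g` -/
def LU (g : E) (u : U) : Prop := ∀ n : N, u * r n = r (MulAut.conjNormal g n) * u

variable {r}

theorem LU.eq {g : E} {u : U} (h : LU r g u) {n n' : N} (hn : (n' : E) = g * n * g⁻¹) :
    u * r n = r n' * u := by
  have h1 : n' = MulAut.conjNormal g n := by
    apply Subtype.ext
    rw [hn, MulAut.conjNormal_apply]
  rw [h n, h1]

theorem LU.mul {g g' : E} {u u' : U} (h : LU r g u) (h' : LU r g' u') :
    LU r (g * g') (u * u') := by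
  intro n
  rw [mul_assoc, h' n, ← mul_assoc, h, mul_assoc, map_mul]
  rfl

theorem LU.self (n : N) : LU r (n : E) (r n) := by
  intro n'
  rw [← map_mul, ← map_mul]
  congr 1
  apply Subtype.ext
  rw [Subgroup.coe_mul, Subgroup.coe_mul, MulAut.conjNormal_apply]
  group

theorem LU.pow {g : E} {u : U} (h : LU r g u) (i : ℕ) : LU r (g ^ i) (u ^ i) := by
  induction i with
  | zero =>
    intro n
    rw [pow_zero, pow_zero, one_mul, mul_one, map_one]
    rfl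
  | succ i ih =>
    rw [pow_succ, pow_succ]
    exact ih.mul h

theorem LU.powmul {x : E} {u : U} (h : LU r x u) (n : N) (i : ℕ) :
    ∃ y : N, (y : E) = (x ^ i)⁻¹ * (x * n) ^ i ∧ (u * r n) ^ i = u ^ i * r y := by
  induction i with
  | zero => exact ⟨1, by simp, by simp⟩
  | succ i ih =>
    obtain ⟨y, hy, hy'⟩ := ih
    have h1 : x⁻¹ * (y : E) * x ∈ N := by
      have := Subgroup.Normal.conj_mem (inferInstance : N.Normal) (y : E) y.2 x⁻¹
      rwa [inv_inv] at this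
    refine ⟨⟨x⁻¹ * (y : E) * x, h1⟩ * n, ?_, ?_⟩
    · rw [Subgroup.coe_mul]
      change x⁻¹ * (y : E) * x * (n : E) = _
      rw [hy, pow_succ x, pow_succ (x * (n : E))]
      group
    · have h2 : u * r ⟨x⁻¹ * (y : E) * x, h1⟩ = r y * u := h.eq (by
        change (y : E) = x * (x⁻¹ * (y : E) * x) * x⁻¹
        group)
      rw [pow_succ, hy', map_mul, pow_succ, mul_assoc (u ^ i) u, ← mul_assoc u, h2]
      simp only [mul_assoc]

variable {Z : ℂˣ →* U} (hZ : ∀ c u, Z c * u = u * Z c)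
  (hS : ∀ u : U, (∀ n : N, u * r n = r n * u) → ∃ c, u = Z c)

include hS in
theorem LU.uniq {g : E} {u u' : U} (h : LU r g u) (h' : LU r g u') : ∃ c, u = Z c * u' := by
  obtain ⟨c, hc⟩ := hS (u * u'⁻¹) (by
    intro n
    obtain ⟨n₁, rfl⟩ := (MulAut.conjNormal g : MulAut N).surjective n
    have h1 : u'⁻¹ * r (MulAut.conjNormal g n₁) = r n₁ * u'⁻¹ := by
      rw [inv_mul_eq_iff_eq_mul, ← mul_assoc, h' n₁, mul_assoc, mul_inv_cancel, mul_one]
    rw [mul_assoc, h1, ← mul_assoc, h n₁, mul_assoc])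
  refine ⟨c, ?_⟩
  rw [← hc, inv_mul_cancel_right]

include hZ in
theorem LU.smul {g : E} {u : U} (h : LU r g u) (c : ℂˣ) : LU r g (Z c * u) := by
  intro n
  rw [mul_assoc, h n, ← mul_assoc, hZ, mul_assoc]

include hZ in
theorem Zpow (c : ℂˣ) (u : U) (i : ℕ) : (Z c * u) ^ i = Z (c ^ i) * u ^ i := by
  rw [(Commute.mul_pow (hZ c u) i), map_pow]

theorem root_exists (c : ℂˣ) {q : ℕ} (hq : 0 < q) : ∃ b : ℂˣ, b ^ q = c := by
  obtain ⟨b, hb⟩ := IsAlgClosed.exists_pow_nat_eq (c : ℂ) hq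
  have hb0 : b ≠ 0 := by
    rintro rfl
    rw [zero_pow hq.ne'] at hb
    exact c.ne_zero hb.symm
  exact ⟨Units.mk0 b hb0, Units.ext hb⟩

variable {D : U →* ℂˣ} {p : ℕ} [Fact p.Prime] {x : E} {j k : ℕ}

theorem exists_neg {P q : ℕ} (h : Nat.Coprime P q) (hq : 0 < q) : ∃ e : ℕ, q ∣ P * e + 1 := by
  have h1 := Nat.ModEq.pow_totient h
  have h2 : 0 < Nat.totient q := Nat.totient_pos.2 hq
  refine ⟨P ^ (Nat.totient q - 1) * (q - 1), ?_⟩
  have h3 : P * (P ^ (Nat.totient q - 1) * (q - 1)) + 1 = P ^ Nat.totient q * (q - 1) + 1 := by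
    rw [← mul_assoc, ← pow_succ', Nat.sub_add_cancel h2]
  rw [h3, ← Nat.modEq_zero_iff_dvd]
  have h4 : P ^ Nat.totient q * (q - 1) + 1 ≡ 1 * (q - 1) + 1 [MOD q] :=
    (h1.mul_right _).add_right _
  refine h4.trans ?_
  rw [one_mul, Nat.sub_add_cancel hq]
  exact (Nat.modEq_zero_iff_dvd).2 dvd_rfl

include hZ hS in
theorem canon (hp : ¬ p ∣ orderOf (x : E ⧸ N)) (hq : 0 < orderOf (x : E ⧸ N)) {u₀ : U}
    (h : LU r x u₀) (hD : ∀ c, D (Z c) = c ^ p ^ j) (hk : ∀ n, D (r n) ^ p ^ k = 1) :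
    ∃ u, LU r x u ∧ (∀ y : N, (y : E) = x ^ orderOf (x : E ⧸ N) →
      u ^ orderOf (x : E ⧸ N) = r y) ∧ D u ^ p ^ k = 1 := by
  set q := orderOf (x : E ⧸ N) with hqdef
  have hxq : x ^ q ∈ N := by
    rw [← QuotientGroup.eq_one_iff, QuotientGroup.mk_pow, hqdef, pow_orderOf_eq_one]
  set y₀ : N := ⟨x ^ q, hxq⟩ with hy₀
  obtain ⟨c, hc⟩ := LU.uniq hS (h.pow q) (LU.self (r := r) y₀)
  obtain ⟨b, hb⟩ := root_exists c⁻¹ hq
  set u₁ : U := Z b * u₀ with hu₁
  have h1 : LU r x u₁ := h.smul hZ b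
  have h2 : u₁ ^ q = r y₀ := by
    rw [hu₁, Zpow hZ, hb, hc, ← mul_assoc, ← map_mul, inv_mul_cancel, map_one, one_mul]
  set δ := D u₁ with hδ
  have h3 : δ ^ (q * p ^ k) = 1 := by
    rw [pow_mul, hδ, ← map_pow, h2, hk]
  have hcop : Nat.Coprime (p ^ (k + j)) q :=
    Nat.Coprime.pow_left _ (((Fact.out : p.Prime).coprime_iff_not_dvd).2 hp)
  obtain ⟨e', he'⟩ : ∃ e' : ℕ, q ∣ p ^ (k + j) * e' + 1 := exists_neg hcop hq
  set ζ : ℂˣ := δ ^ (p ^ k * e') with hζ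
  have hζq : ζ ^ q = 1 := by
    rw [hζ, ← pow_mul, show p ^ k * e' * q = (q * p ^ k) * e' by ring, pow_mul, h3, one_pow]
  refine ⟨Z ζ * u₁, h1.smul hZ ζ, ?_, ?_⟩
  · intro y hy
    rw [Zpow hZ, hζq, map_one, one_mul, h2]
    congr 1
    exact Subtype.ext hy.symm
  · rw [map_mul, hD, ← hδ, hζ, ← pow_mul, ← pow_succ, ← pow_mul]
    obtain ⟨w, hw⟩ := he'
    have h4 : (p ^ k * e' * p ^ j + 1) * p ^ k = (q * p ^ k) * w := by
      have : p ^ k * e' * p ^ j + 1 = p ^ (k + j) * e' + 1 := by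
        rw [pow_add]
        ring
      rw [this, hw]
      ring
    rw [h4, pow_mul, h3, one_pow]

theorem scalar_one {c : ℂˣ} {q l : ℕ} (hpq : ¬ p ∣ q) (h1 : c ^ q = 1) (h2 : c ^ p ^ l = 1) :
    c = 1 := by
  have hcop : Nat.Coprime (p ^ l) q :=
    Nat.Coprime.pow_left _ (((Fact.out : p.Prime).coprime_iff_not_dvd).2 hpq)
  have h3 : orderOf c ∣ 1 := by
    rw [← hcop]
    exact Nat.dvd_gcd (orderOf_dvd_of_pow_eq_one h2) (orderOf_dvd_of_pow_eq_one h1)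
  rw [← orderOf_eq_one_iff]
  exact Nat.dvd_one.1 h3

variable {m : ℕ} {z : E} {Φ : U →* U} {s : ℂˣ →* ℂˣ}

include hZ hS in
theorem canon_tw (hp : ¬ p ∣ orderOf (x : E ⧸ N)) {u : U}
    (hu : LU r x u) (hD : ∀ c, D (Z c) = c ^ p ^ j) (hZi : Function.Injective Z)
    (huq : ∀ y : N, (y : E) = x ^ orderOf (x : E ⧸ N) → u ^ orderOf (x : E ⧸ N) = r y)
    (hdu : D u ^ p ^ k = 1) (hk : ∀ n, D (r n) ^ p ^ k = 1)
    (hΦ : ∀ n n' : N, (n' : E) = z * n * z⁻¹ → Φ (r n') = r n) (hΦD : ∀ u, D (Φ u) = s (D u))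
    {k₀ : N} (hk₀ : x * k₀ = z * x ^ m * z⁻¹) : Φ (u * r k₀) = u ^ m := by
  set q := orderOf (x : E ⧸ N) with hqdef
  have hxq : x ^ q ∈ N := by
    rw [← QuotientGroup.eq_one_iff, QuotientGroup.mk_pow, hqdef, pow_orderOf_eq_one]
  set y₀ : N := ⟨x ^ q, hxq⟩ with hy₀
  have h1 : LU r (x ^ m) (Φ (u * r k₀)) := by
    intro n
    have e1 : z * (n : E) * z⁻¹ ∈ N := Subgroup.Normal.conj_mem inferInstance _ n.2 _
    have e2 : z * ((MulAut.conjNormal (x ^ m) n : N) : E) * z⁻¹ ∈ N :=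
      Subgroup.Normal.conj_mem inferInstance _ (MulAut.conjNormal (x ^ m) n : N).2 _
    rw [← hΦ n ⟨_, e1⟩ rfl, ← hΦ (MulAut.conjNormal (x ^ m) n) ⟨_, e2⟩ rfl, ← map_mul, ← map_mul]
    congr 1
    have e3 : LU r (x * k₀) (u * r k₀) := hu.mul (LU.self k₀)
    refine e3.eq ?_
    change z * ((MulAut.conjNormal (x ^ m) n : N) : E) * z⁻¹ = _
    rw [MulAut.conjNormal_apply, hk₀]
    group
  obtain ⟨c, hc⟩ := LU.uniq hS h1 (hu.pow m)
  -- the power `q`
  have h2 : c ^ q = 1 := by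
    obtain ⟨y, hy, hy'⟩ := hu.powmul k₀ q
    have h3 : (u * r k₀) ^ q = r (y₀ * y) := by
      rw [hy', map_mul, huq y₀ rfl]
    have h4 : Φ ((u * r k₀) ^ q) = (u ^ m) ^ q := by
      rw [h3, hΦ (y₀ ^ m) (y₀ * y) ?_, map_pow, ← huq y₀ rfl, ← pow_mul, ← pow_mul, mul_comm q m]
      rw [Subgroup.coe_mul, hy, Subgroup.coe_pow]
      change x ^ q * ((x ^ q)⁻¹ * (x * (k₀ : E)) ^ q) = z * (x ^ q) ^ m * z⁻¹
      rw [mul_inv_cancel_left, hk₀, conj_pow, ← pow_mul, ← pow_mul, mul_comm]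
    have h5 : (Z c * u ^ m) ^ q = Z (c ^ q) * (u ^ m) ^ q := Zpow hZ c (u ^ m) q
    rw [map_pow, hc, h5] at h4
    apply hZi
    rw [map_one]
    exact mul_eq_right.1 h4
  have h6 : c ^ p ^ (j + k) = 1 := by
    have h7 := congrArg (fun u => D u ^ p ^ k) hc
    simp only [hΦD, map_mul, hD, map_pow] at h7
    rw [mul_pow, mul_pow, ← map_pow s (D u), ← map_pow s (D (r k₀)), hdu, hk, map_one, one_mul,
      ← pow_mul, ← pow_mul, mul_comm m, pow_mul (D u), hdu, one_pow, mul_one, ← pow_add] at h7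
    exact h7.symm
  rw [hc, scalar_one hp h2 h6, map_one, one_mul]

include hZ hS in
theorem canon_tw_all (hp : ¬ p ∣ orderOf (x : E ⧸ N)) {u : U}
    (hu : LU r x u) (hD : ∀ c, D (Z c) = c ^ p ^ j) (hZi : Function.Injective Z)
    (huq : ∀ y : N, (y : E) = x ^ orderOf (x : E ⧸ N) → u ^ orderOf (x : E ⧸ N) = r y)
    (hdu : D u ^ p ^ k = 1) (hk : ∀ n, D (r n) ^ p ^ k = 1)
    (hΦ : ∀ n n' : N, (n' : E) = z * n * z⁻¹ → Φ (r n') = r n) (hΦD : ∀ u, D (Φ u) = s (D u))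
    {k₀ : N} (hk₀ : x * k₀ = z * x ^ m * z⁻¹) (n : N) :
    ∃ k₁ : N, x * k₁ = z * (x * n) ^ m * z⁻¹ ∧ Φ (u * r k₁) = (u * r n) ^ m := by
  obtain ⟨ν, hν, hν'⟩ := hu.powmul n m
  have e1 : z * (ν : E) * z⁻¹ ∈ N := Subgroup.Normal.conj_mem inferInstance _ ν.2 _
  refine ⟨k₀ * ⟨_, e1⟩, ?_, ?_⟩
  · rw [Subgroup.coe_mul, ← mul_assoc, hk₀]
    change z * x ^ m * z⁻¹ * (z * (ν : E) * z⁻¹) = _
    rw [hν]
    group
  · rw [map_mul r, ← mul_assoc, map_mul Φ, hΦ ν ⟨_, e1⟩ rfl,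
      canon_tw hZ hS hp hu hD hZi huq hdu hk hΦ hΦD hk₀, hν']

/-- the order of `u r(n)` -/
theorem pow_card_one [Finite E] {u : U} (hu : LU r x u)
    (huq : ∀ y : N, (y : E) = x ^ orderOf (x : E ⧸ N) → u ^ orderOf (x : E ⧸ N) = r y) (n : N) :
    (u * r n) ^ Nat.card E = 1 := by
  set q := orderOf (x : E ⧸ N) with hqdef
  have hxq : x ^ q ∈ N := by
    rw [← QuotientGroup.eq_one_iff, QuotientGroup.mk_pow, hqdef, pow_orderOf_eq_one]
  obtain ⟨y, hy, hy'⟩ := hu.powmul n (Nat.card E)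
  have h1 : y = 1 := by
    apply Subtype.ext
    rw [hy, pow_card_eq_one', pow_card_eq_one']
    simp
  obtain ⟨w, hw⟩ : q ∣ Nat.card E := by
    rw [hqdef]
    exact (orderOf_dvd_natCard (x : E ⧸ N)).trans (Subgroup.card_quotient_dvd_card N)
  rw [hy', h1, map_one, mul_one, hw, pow_mul, huq ⟨x ^ q, hxq⟩ rfl, ← map_pow]
  have h2 : (⟨x ^ q, hxq⟩ : N) ^ w = 1 := by
    apply Subtype.ext
    rw [Subgroup.coe_pow]
    change (x ^ q) ^ w = 1
    rw [← pow_mul, ← hw, pow_card_eq_one']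
  rw [h2, map_one]

/-- the argument of `θ` -/
theorem arg_eq {u : U} (hu : LU r x u) {n n' k₁ y : N}
    (hk₁ : x * k₁ = z * (x * n) ^ m * z⁻¹)
    (hy : (y : E) = (x * n)⁻¹ * (n' * z) * (x * n) ^ m * (n' * z)⁻¹) :
    r y = (u * r n)⁻¹ * (r n' * (u * r k₁) * (r n')⁻¹) := by
  rw [eq_inv_mul_iff_mul_eq, mul_assoc, ← map_mul]
  have h1 : x⁻¹ * (n' : E) * x ∈ N := by
    have := Subgroup.Normal.conj_mem (inferInstance : N.Normal) (n' : E) n'.2 x⁻¹
    rwa [inv_inv] at this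
  have h2 : u * r ⟨x⁻¹ * (n' : E) * x, h1⟩ = r n' * u := hu.eq (by
    change (n' : E) = x * (x⁻¹ * (n' : E) * x) * x⁻¹
    group)
  have h3 : n * y = ⟨x⁻¹ * (n' : E) * x, h1⟩ * k₁ * n'⁻¹ := by
    apply Subtype.ext
    rw [Subgroup.coe_mul, Subgroup.coe_mul, Subgroup.coe_mul, Subgroup.coe_inv, hy]
    change (n : E) * ((x * n)⁻¹ * (n' * z) * (x * n) ^ m * (n' * z)⁻¹) =
      x⁻¹ * (n' : E) * x * k₁ * (n' : E)⁻¹
    rw [mul_assoc (x⁻¹ * (n' : E)) x, hk₁]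
    group
  rw [h3, map_mul, map_mul, ← mul_assoc, ← mul_assoc, h2, map_inv, mul_assoc (r n') u]

end abs

section tw

open Pool.Agent.Q18.K

variable {W : Type} [AddCommGroup W] [Module ℂ W] [FiniteDimensional ℂ W]

theorem tw_det (σ : ℂ ≃+* ℂ) (T : Module.End ℂ W) :
    LinearMap.det (twEnd σ T) = σ (LinearMap.det T) := by
  have b := Module.finBasis ℂ W
  rw [← LinearMap.det_toMatrix b, ← LinearMap.det_toMatrix (twBasis σ b)]
  have h1 : LinearMap.toMatrix (twBasis σ b) (twBasis σ b) (twEnd σ T) =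
      (σ : ℂ →+* ℂ).mapMatrix (LinearMap.toMatrix b b T) := by
    ext i j
    rw [LinearMap.toMatrix_apply, twBasis_repr, twBasis_apply, RingHom.mapMatrix_apply,
      Matrix.map_apply, LinearMap.toMatrix_apply]
    rfl
  rw [h1, ← RingHom.map_det]
  rfl

instance twFin (σ : ℂ ≃+* ℂ) : FiniteDimensional ℂ (TwV σ W) :=
  (twBasis σ (Module.finBasis ℂ W)).finiteDimensional_of_finite

theorem exists_tw {L : Type} [Group L] [Fintype L] (ρ : Representation ℂ L W)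
    (hρ : ρ.IsIrreducible) (e : L ≃* L) (s : ℂ ≃+* ℂ)
    (h : ∀ n, s (ρ.character (e n)) = ρ.character n) :
    ∃ Φ : Module.End ℂ W →* Module.End ℂ W, (∀ n, Φ (ρ (e n)) = ρ n) ∧
      (∀ T, LinearMap.trace ℂ W (Φ T) = s (LinearMap.trace ℂ W T)) ∧
      ∀ T, LinearMap.det (Φ T) = s (LinearMap.det T) := by
  let ρ' : Representation ℂ L (TwV s W) :=
    { toFun := fun n => twEnd s (ρ (e n))
      map_one' := by
        rw [map_one, map_one]
        rfl
      map_mul' := fun g h => by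
        rw [map_mul, map_mul]
        rfl }
  have hc : ρ'.character = ρ.character := by
    funext n
    rw [← h n]
    exact tw_trace s (ρ (e n))
  have hρ' : ρ'.IsIrreducible := by
    refine Pool.Agent.Q17.TC.irr_of_char Pool.Agent.Q17.TC.t_HOM ρ' ?_
    rw [hc]
    exact ⟨W, _, _, inferInstance, ρ, hρ, rfl⟩
  haveI : Invertible (Nat.card L : ℂ) :=
    invertibleOfNonzero (by exact_mod_cast (Nat.card_pos (α := L)).ne')
  have h1 := Representation.char_orthonormal ρ ρ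
  rw [if_pos ⟨Representation.Equiv.refl ρ⟩] at h1
  have h2 := Representation.char_orthonormal ρ' ρ
  rw [hc, h1] at h2
  have h3 : Nonempty (Representation.Equiv ρ ρ') := by
    by_contra hcon
    rw [if_neg hcon] at h2
    exact one_ne_zero h2
  obtain ⟨φ⟩ := h3
  let V : W ≃ₗ[ℂ] TwV s W := φ.toLinearEquiv
  have hV : ∀ n w, V (ρ n w) = ρ' n (V w) := fun n w =>
    Representation.IntertwiningMap.isIntertwining _ _ φ.toIntertwiningMap n w
  refine ⟨{ toFun := fun T => V.symm.conj (twEnd s T), map_one' := ?_, map_mul' := ?_ }, ?_, ?_, ?_⟩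
  · have : twEnd s (1 : Module.End ℂ W) = 1 := rfl
    rw [this]
    ext w
    simp [LinearEquiv.conj_apply]
  · intro S T
    have : twEnd s (S * T) = twEnd s S * twEnd s T := rfl
    rw [this]
    ext w
    simp [LinearEquiv.conj_apply]
  · intro n
    ext w
    change V.symm (ρ' n (V w)) = ρ n w
    rw [← hV, LinearEquiv.symm_apply_apply]
  · intro T
    change LinearMap.trace ℂ W (V.symm.conj (twEnd s T)) = _
    rw [LinearMap.trace_conj', tw_trace]
  · intro T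
    change LinearMap.det (V.symm.conj (twEnd s T)) = _
    rw [← tw_det s T]
    exact LinearMap.det_conj (twEnd s T) V.symm

end tw

section main

variable {W : Type} [AddCommGroup W] [Module ℂ W] [FiniteDimensional ℂ W]

/-- scalars -/
def sc (W : Type) [AddCommGroup W] [Module ℂ W] : ℂˣ →* (Module.End ℂ W)ˣ :=
  Units.map (algebraMap ℂ (Module.End ℂ W) : ℂ →* Module.End ℂ W)

theorem sc_comm (c : ℂˣ) (u : (Module.End ℂ W)ˣ) : sc W c * u = u * sc W c := by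
  apply Units.ext
  exact Algebra.commutes (c : ℂ) (u : Module.End ℂ W)

theorem sc_inj [Nontrivial W] : Function.Injective (sc W) := by
  intro a b h
  apply Units.ext
  have h1 : algebraMap ℂ (Module.End ℂ W) a = algebraMap ℂ (Module.End ℂ W) b :=
    congrArg Units.val h
  exact (FaithfulSMul.algebraMap_injective ℂ (Module.End ℂ W)) h1

/-- determinant on units -/
def dt (W : Type) [AddCommGroup W] [Module ℂ W] : (Module.End ℂ W)ˣ →* ℂˣ :=
  Units.map (LinearMap.det : Module.End ℂ W →* ℂ)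

theorem dt_sc (c : ℂˣ) : dt W (sc W c) = c ^ Module.finrank ℂ W := by
  apply Units.ext
  change LinearMap.det (algebraMap ℂ (Module.End ℂ W) (c : ℂ)) = ((c ^ Module.finrank ℂ W : ℂˣ) : ℂ)
  rw [Algebra.algebraMap_eq_smul_one, LinearMap.det_smul]
  simp

/-- Schur -/
theorem schur_units {L : Type} [Group L] {ρ : Representation ℂ L W} (hρ : ρ.IsIrreducible)
    (u : (Module.End ℂ W)ˣ) (hu : ∀ n, u * ρ.toHomUnits n = ρ.toHomUnits n * u) :
    ∃ c : ℂˣ, u = sc W c := by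
  haveI : Nontrivial W := Pool.Agent.H254R3.IN.irr_nontrivial ρ hρ
  obtain ⟨c, hc⟩ := Pool.Agent.H254R3.IN.schur ρ hρ (u : Module.End ℂ W) (by
    intro n v
    have := congrArg (fun T : (Module.End ℂ W)ˣ => (T : Module.End ℂ W) v) (hu n)
    exact this)
  have hc0 : c ≠ 0 := by
    rintro rfl
    rw [zero_smul] at hc
    exact u.ne_zero hc
  refine ⟨Units.mk0 c hc0, Units.ext ?_⟩
  rw [hc]
  change _ = algebraMap ℂ (Module.End ℂ W) c
  rw [Algebra.algebraMap_eq_smul_one]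
  rfl

theorem t_COS : S_COS := by
  intro E _ _ p _ G N _ _ hNG θ hθ hθG s m hs z hz x hxG hk0 hp
  obtain ⟨W, i1, i2, i3, ρ, hρ, rfl, ⟨j, hj⟩, ⟨k, hk⟩⟩ := hθ
  haveI : Nontrivial W := Pool.Agent.H254R3.IN.irr_nontrivial ρ hρ
  set r : N →* (Module.End ℂ W)ˣ := ρ.toHomUnits with hr
  have hrv : ∀ n, (r n : Module.End ℂ W) = ρ n := fun n => rfl
  -- the first lift
  obtain ⟨u₀', hu₀'⟩ := Pool.Agent.Q17.TC.t_LFT E W N ρ hρ x (fun n =>
    hθG x hxG n _ (MulAut.conjNormal_apply _ _))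
  set u₀ : (Module.End ℂ W)ˣ := LinearMap.GeneralLinearGroup.ofLinearEquiv u₀' with hu₀
  have hLU₀ : LU r x u₀ := by
    intro n
    apply Units.ext
    ext w
    exact hu₀' n w
  have hS : ∀ u : (Module.End ℂ W)ˣ, (∀ n : N, u * r n = r n * u) → ∃ c, u = sc W c :=
    fun u hu => schur_units hρ u hu
  have hD : ∀ c, dt W (sc W c) = c ^ p ^ j := fun c => by rw [dt_sc, hj]
  have hk' : ∀ n, dt W (r n) ^ p ^ k = 1 := by
    intro n
    apply Units.ext
    rw [Units.val_pow_eq_pow_val, Units.val_one]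
    exact hk n
  have hq : 0 < orderOf (x : E ⧸ N) := orderOf_pos _
  obtain ⟨u, hu, huq, hdu⟩ := canon sc_comm hS hp hq hLU₀ hD hk'
  -- the twist
  obtain ⟨Φ₀, hΦ₀, hΦtr, hΦdet⟩ := exists_tw ρ hρ (MulAut.conjNormal z : N ≃* N) s (fun n =>
    hz n _ (MulAut.conjNormal_apply _ _))
  set Φ : (Module.End ℂ W)ˣ →* (Module.End ℂ W)ˣ := Units.map Φ₀ with hΦdef
  have hΦ : ∀ n n' : N, (n' : E) = z * n * z⁻¹ → Φ (r n') = r n := by
    intro n n' hn
    apply Units.ext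
    rw [hΦdef, Units.coe_map]
    change Φ₀ (ρ n') = ρ n
    rw [← hΦ₀ n]
    congr 2
    apply Subtype.ext
    rw [hn]
    exact (MulAut.conjNormal_apply _ _).symm
  have hΦD : ∀ T, dt W (Φ T) = (Units.map (s : ℂ →* ℂ)) (dt W T) := by
    intro T
    apply Units.ext
    exact hΦdet T
  set k₀ : N := ⟨_, hk0⟩ with hk₀def
  have hk₀ : x * (k₀ : E) = z * x ^ m * z⁻¹ := by
    rw [hk₀def]
    change x * (x⁻¹ * z * x ^ m * z⁻¹) = z * x ^ m * z⁻¹
    group
  have hall := canon_tw_all (m := m) (z := z) sc_comm hS hp hu hD sc_inj huq hdu hk' hΦ hΦD hk₀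
  set d : ℂ := (Module.finrank ℂ W : ℂ) with hd
  have hd0 : d ≠ 0 := Pool.Agent.Q17.TC.finrank_ne hρ
  have hN0 : (Nat.card N : ℂ) ≠ 0 := by exact_mod_cast (Nat.card_pos (α := N)).ne'
  have hθ1 : ρ.character 1 = d := by
    rw [hd]
    exact Representation.char_one ρ
  -- inner sums
  have hin : ∀ n : N, ∑ n' : N, FF N ρ.character m (x * n) (n' * z) =
      LinearMap.trace ℂ W ((u : Module.End ℂ W) ∘ₗ ρ n) *
        LinearMap.trace ℂ W (ρ n⁻¹ ∘ₗ ((u⁻¹ : (Module.End ℂ W)ˣ) : Module.End ℂ W)) := by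
    intro n
    obtain ⟨k₁, hk₁, hk₁'⟩ := hall n
    have htr : LinearMap.trace ℂ W ((u * r k₁ : (Module.End ℂ W)ˣ) : Module.End ℂ W) =
        LinearMap.trace ℂ W ((u * r n : (Module.End ℂ W)ˣ) : Module.End ℂ W) := by
      apply s.injective
      rw [← hΦtr]
      have h1 : Φ₀ ((u * r k₁ : (Module.End ℂ W)ˣ) : Module.End ℂ W) =
          ((u * r n : (Module.End ℂ W)ˣ) : Module.End ℂ W) ^ m := by
        have := congrArg Units.val hk₁'
        rw [Units.val_pow_eq_pow_val] at this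
        exact this
      rw [h1]
      have h2 : ((u * r n : (Module.End ℂ W)ˣ) : Module.End ℂ W) ^ Nat.card E = 1 := by
        rw [← Units.val_pow_eq_pow_val, pow_card_one hu huq n, Units.val_one]
      exact Pool.Agent.Q18.K.trace_pow_gal Nat.card_pos h2 (s : ℂ →+* ℂ) m hs
    have h3 : ∀ n' : N, FF N ρ.character m (x * n) (n' * z) = d / (Nat.card N : ℂ) *
        LinearMap.trace ℂ W ((((u * r n)⁻¹ : (Module.End ℂ W)ˣ) : Module.End ℂ W) ∘ₗ
          (ρ n' ∘ₗ ((u * r k₁ : (Module.End ℂ W)ˣ) : Module.End ℂ W) ∘ₗ ρ n'⁻¹)) := by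
      intro n'
      rw [FF_eq, hθ1]
      congr 1
      have h4 : (x * (n : E))⁻¹ * ((n' : E) * z) * (x * n) ^ m * ((n' : E) * z)⁻¹ ∈ N := by
        have h5 : (x * (n : E))⁻¹ * ((n' : E) * z) * (x * n) ^ m * ((n' : E) * z)⁻¹ =
            (n : E)⁻¹ * (x⁻¹ * n' * x) * k₁ * (n' : E)⁻¹ := by
          have h6 : (x * (n : E)) ^ m = z⁻¹ * (x * k₁) * z := by
            rw [hk₁]
            group
          rw [h6]
          group
        rw [h5]
        have h7 : x⁻¹ * (n' : E) * x ∈ N := by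
          have := Subgroup.Normal.conj_mem (inferInstance : N.Normal) (n' : E) n'.2 x⁻¹
          rwa [inv_inv] at this
        exact N.mul_mem (N.mul_mem (N.mul_mem (N.inv_mem n.2) h7) k₁.2) (N.inv_mem n'.2)
      unfold ez
      rw [dif_pos h4]
      have h8 := arg_eq hu hk₁ (y := ⟨_, h4⟩) (n := n) (n' := n') rfl
      have h9 := congrArg (fun T : (Module.End ℂ W)ˣ => LinearMap.trace ℂ W (T : Module.End ℂ W)) h8
      rw [← map_inv r n'] at h9
      exact h9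
    rw [Finset.sum_congr rfl fun n' _ => h3 n', ← Finset.mul_sum, ← map_sum]
    have h10 : ∑ n' : N, (((u * r n)⁻¹ : (Module.End ℂ W)ˣ) : Module.End ℂ W) ∘ₗ
          (ρ n' ∘ₗ ((u * r k₁ : (Module.End ℂ W)ˣ) : Module.End ℂ W) ∘ₗ ρ n'⁻¹) =
        (((u * r n)⁻¹ : (Module.End ℂ W)ˣ) : Module.End ℂ W) ∘ₗ
          ∑ n' : N, (ρ n' ∘ₗ ((u * r k₁ : (Module.End ℂ W)ˣ) : Module.End ℂ W) ∘ₗ ρ n'⁻¹) :=
      (Finset.mul_sum (Finset.univ : Finset N) _ (((u * r n)⁻¹ : (Module.End ℂ W)ˣ) :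
        Module.End ℂ W)).symm
    rw [h10, Pool.Agent.Q17.TC.average ρ hρ, LinearMap.comp_smul, LinearMap.comp_id, map_smul,
      smul_eq_mul, htr]
    have h11 : (((u * r n)⁻¹ : (Module.End ℂ W)ˣ) : Module.End ℂ W) =
        ρ n⁻¹ ∘ₗ ((u⁻¹ : (Module.End ℂ W)ˣ) : Module.End ℂ W) := by
      rw [mul_inv_rev, ← map_inv]
      rfl
    rw [h11]
    have h12 : ((u * r n : (Module.End ℂ W)ˣ) : Module.End ℂ W) =
        (u : Module.End ℂ W) ∘ₗ ρ n := rfl
    rw [h12, ← hd]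
    field_simp
  rw [Finset.sum_congr rfl fun n _ => hin n,
    Pool.Agent.Q17.TC.t_ORT N W ρ hρ]
  have h13 : (u : Module.End ℂ W) ∘ₗ ((u⁻¹ : (Module.End ℂ W)ˣ) : Module.End ℂ W) =
      LinearMap.id := Units.mul_inv u
  rw [h13, LinearMap.trace_id, ← hd]
  field_simp

end main

end Pool.Agent.Q150.TP
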