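import Pool.Agent.Q17.TP.Stm

/-!
# Project TP, job ASM: the alternating sum
-/

set_option autoImplicit false
set_option linter.style.haveILetI false
set_option linter.unusedSectionVars false

open scoped Classical

noncomputable section

namespace Pool.Agent.Q150.TP

open Pool.Agent.H254R3.IN (IsIrr)
open Pool.Agent.Y63.KR Pool.Agent.Q17.WR Pool.Agent.Q17.TP

section basic

variable {E : Type} [Group E] {G N : Subgroup E} [N.Normal]

theorem mk_mem_Gb (hNG : N ≤ G) (x : E) : (x : E ⧸ N) ∈ Gb G N ↔ x ∈ G := by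
  constructor
  · rintro ⟨y, hy, hyx⟩
    have h1 : y⁻¹ * x ∈ N := QuotientGroup.eq.1 hyx
    have := G.mul_mem hy (hNG h1)
    rwa [mul_inv_cancel_left] at this
  · intro hx
    exact ⟨x, hx, rfl⟩

/-- extension by zero -/
def ez (θ : N → ℂ) (y : E) : ℂ := if h : y ∈ N then θ ⟨y, h⟩ else 0

theorem FF_eq (θ : N → ℂ) (m : ℕ) (x z : E) :
    FF N θ m x z = θ 1 / (Nat.card N : ℂ) * ez θ (x⁻¹ * z * x ^ m * z⁻¹) := rfl

theorem ez_conj {θ : N → ℂ} (hθ : ∀ g ∈ G, ∀ n n' : N, (n' : E) = g * n * g⁻¹ → θ n' = θ n)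
    {g : E} (hg : g ∈ G) (y : E) : ez θ (g * y * g⁻¹) = ez θ y := by
  unfold ez
  have h1 : g * y * g⁻¹ ∈ N ↔ y ∈ N :=
    (Subgroup.Normal.mem_comm_iff inferInstance).trans (by
      rw [inv_mul_cancel_left])
  by_cases h : y ∈ N
  · rw [dif_pos h, dif_pos (h1.2 h)]
    exact hθ g hg ⟨y, h⟩ ⟨_, h1.2 h⟩ rfl
  · rw [dif_neg h, dif_neg (fun h' => h (h1.1 h'))]

theorem FF_conj {θ : N → ℂ} (hθ : ∀ g ∈ G, ∀ n n' : N, (n' : E) = g * n * g⁻¹ → θ n' = θ n)
    (m : ℕ) {g : E} (hg : g ∈ G) (x z : E) :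
    FF N θ m (g * x * g⁻¹) (g * z * g⁻¹) = FF N θ m x z := by
  rw [FF_eq, FF_eq, ← ez_conj hθ hg (x⁻¹ * z * x ^ m * z⁻¹)]
  congr 2
  rw [conj_pow]
  group

theorem stab_conj (g x : E) (σ : Set (Subgroup (E ⧸ N))) :
    ((g * x * g⁻¹ : E) : E ⧸ N) ∈ chainStabilizer (conjSub (g : E ⧸ N) '' σ) ↔
      (x : E ⧸ N) ∈ chainStabilizer σ := by
  rw [chainStabilizer_conj, mem_conjSub]
  have : (g : E ⧸ N)⁻¹ * ((g * x * g⁻¹ : E) : E ⧸ N) * (g : E ⧸ N) = (x : E ⧸ N) := by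
    rw [QuotientGroup.mk_mul, QuotientGroup.mk_mul, QuotientGroup.mk_inv]
    group
  rw [this]

theorem GS_conj {g : E} (hg : g ∈ G) (x : E) (σ : Set (Subgroup (E ⧸ N))) :
    g * x * g⁻¹ ∈ GS G N (conjSub (g : E ⧸ N) '' σ) ↔ x ∈ GS G N σ := by
  unfold GS
  rw [Subgroup.mem_inf, Subgroup.mem_inf, Subgroup.mem_comap, Subgroup.mem_comap]
  have h1 : g * x * g⁻¹ ∈ G ↔ x ∈ G := by
    rw [G.mul_mem_cancel_right (G.inv_mem hg), G.mul_mem_cancel_left hg]
  have h2 := stab_conj (N := N) g x σ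
  exact and_congr h1 h2

theorem card_GS_conj {g : E} (hg : g ∈ G) (σ : Set (Subgroup (E ⧸ N))) :
    Nat.card (GS G N (conjSub (g : E ⧸ N) '' σ)) = Nat.card (GS G N σ) := by
  refine (Nat.card_congr (Equiv.subtypeEquiv (MulAut.conj g).toEquiv fun x => ?_)).symm
  exact (GS_conj hg x σ).symm

end basic

section wc

variable {E : Type} [Group E] [Finite E] {G N : Subgroup E} [G.Normal] [N.Normal]

theorem WC_eq (p : ℕ) [Fintype (ChQ p G N)] (x z : E ⧸ N) :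
    WC p (Gb G N) {x, z} = ∑ σ : ChQ p G N, (-1) ^ σ.1.ncard *
      (if x ∈ chainStabilizer σ.1 ∧ z ∈ chainStabilizer σ.1 then (1 : ℤ) else 0) := by
  have : Fintype {σ : Set (Subgroup (E ⧸ N)) // IsPChain p σ} := Fintype.ofFinite _
  unfold WC
  rw [finsum_eq_sum_of_fintype]
  have h1 : ∀ σ : {σ : Set (Subgroup (E ⧸ N)) // IsPChain p σ},
      (-1 : ℤ) ^ σ.1.ncard * (if (∀ P ∈ σ.1, P ≤ Gb G N) ∧ Fx {x, z} σ.1 then 1 else 0) =
      if (∀ P ∈ σ.1, P ≤ Gb G N) then (-1 : ℤ) ^ σ.1.ncard *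
        (if x ∈ chainStabilizer σ.1 ∧ z ∈ chainStabilizer σ.1 then 1 else 0) else 0 := by
    intro σ
    have h2 : Fx {x, z} σ.1 ↔ x ∈ chainStabilizer σ.1 ∧ z ∈ chainStabilizer σ.1 := by
      rw [mem_chainStabilizer, mem_chainStabilizer]
      unfold Fx
      constructor
      · intro h
        exact ⟨fun P hP => h P hP x (by simp), fun P hP => h P hP z (by simp)⟩
      · rintro ⟨h, h'⟩ P hP y hy
        rcases hy with rfl | hy
        · exact h P hP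
        · rw [Set.mem_singleton_iff] at hy
          rw [hy]
          exact h' P hP
    rw [h2]
    by_cases h3 : ∀ P ∈ σ.1, P ≤ Gb G N
    · rw [if_pos h3]
      by_cases h4 : x ∈ chainStabilizer σ.1 ∧ z ∈ chainStabilizer σ.1
      · rw [if_pos ⟨h3, h4⟩, if_pos h4]
      · rw [if_neg (fun h => h4 h.2), if_neg h4]
    · rw [if_neg h3, if_neg (fun h => h3 h.1), mul_zero]
  rw [Finset.sum_congr rfl fun σ _ => h1 σ, ← Finset.sum_filter]
  symm
  refine Finset.sum_bij (fun σ _ => ⟨σ.1, σ.2.1⟩) ?_ ?_ ?_ ?_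
  · intro σ _
    rw [Finset.mem_filter]
    exact ⟨Finset.mem_univ _, σ.2.2⟩
  · intro σ _ τ _ h
    apply Subtype.ext
    have := congrArg Subtype.val h
    exact this
  · intro σ hσ
    rw [Finset.mem_filter] at hσ
    exact ⟨⟨σ.1, σ.2, hσ.2⟩, Finset.mem_univ _, rfl⟩
  · intro σ _
    rfl

end wc

section fin

variable {E : Type} [Group E] [Fintype E] {G N : Subgroup E} [G.Normal] [N.Normal]

/-- the right side of `S_CNT` -/
def Fs (G N : Subgroup E) [N.Normal] (θ : N → ℂ) (m : ℕ) (e : E)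
    (σ : Set (Subgroup (E ⧸ N))) : ℂ :=
  ∑ z : E, if z * e⁻¹ ∈ G ∧ (z : E ⧸ N) ∈ chainStabilizer σ then
      ∑ x : E, (if x ∈ GS G N σ then FF N θ m x z else 0) else 0

theorem Fs_conj {θ : N → ℂ} (hθ : ∀ g ∈ G, ∀ n n' : N, (n' : E) = g * n * g⁻¹ → θ n' = θ n)
    (m : ℕ) (e : E) {g : E} (hg : g ∈ G) (σ : Set (Subgroup (E ⧸ N))) :
    Fs G N θ m e (conjSub (g : E ⧸ N) '' σ) = Fs G N θ m e σ := by
  unfold Fs
  rw [← (MulAut.conj g).toEquiv.sum_comp]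
  refine Finset.sum_congr rfl fun z _ => ?_
  have hz : (MulAut.conj g).toEquiv z = g * z * g⁻¹ := rfl
  rw [hz]
  have h1 : g * z * g⁻¹ * e⁻¹ ∈ G ↔ z * e⁻¹ ∈ G := by
    have h2 : g * z * g⁻¹ * e⁻¹ = g * (z * e⁻¹) * (e * g⁻¹ * e⁻¹) := by group
    have h3 : e * g⁻¹ * e⁻¹ ∈ G := (inferInstance : G.Normal).conj_mem _ (G.inv_mem hg) e
    rw [h2, G.mul_mem_cancel_right h3, G.mul_mem_cancel_left hg]
  rw [h1, stab_conj]
  split_ifs
  · rw [← (MulAut.conj g).toEquiv.sum_comp]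
    refine Finset.sum_congr rfl fun x _ => ?_
    have hx : (MulAut.conj g).toEquiv x = g * x * g⁻¹ := rfl
    rw [hx, FF_conj hθ m hg]
    by_cases h : x ∈ GS G N σ
    · rw [if_pos h, if_pos ((GS_conj hg x σ).2 h)]
    · rw [if_neg h, if_neg (fun h' => h ((GS_conj hg x σ).1 h'))]
  · rfl

/-- the orbit formula -/
theorem orbit_altQ (p : ℕ) (w : Set (Subgroup (E ⧸ N)) → ℤ) [Fintype (ChQ p G N)]
    (hw : ∀ g ∈ G, ∀ σ : Set (Subgroup (E ⧸ N)), w (conjSub (g : E ⧸ N) '' σ) = w σ) :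
    (Nat.card G : ℤ) * altQ p G N w =
      ∑ σ : ChQ p G N, (-1) ^ σ.1.ncard * ((Nat.card (GS G N σ.1) : ℤ) * w σ.1) := by
  letI : MulAction G (ChQ p G N) :=
    { smul := fun g σ => ⟨conjSub ((g : E) : E ⧸ N) '' σ.1, σ.2.1.conj _, by
        rintro _ ⟨P, hP, rfl⟩ x hx
        rw [mem_conjSub] at hx
        have h1 := σ.2.2 P hP hx
        have hg : ((g : E) : E ⧸ N) ∈ Gb G N := ⟨g, g.2, rfl⟩
        have h2 := (Gb G N).mul_mem ((Gb G N).mul_mem hg h1) ((Gb G N).inv_mem hg)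
        have h3 : ((g : E) : E ⧸ N) * (((g : E) : E ⧸ N)⁻¹ * x * ((g : E) : E ⧸ N)) *
            ((g : E) : E ⧸ N)⁻¹ = x := by group
        rwa [h3] at h2⟩
      one_smul := fun σ => by
        apply Subtype.ext
        change conjSub (((1 : G) : E) : E ⧸ N) '' σ.1 = σ.1
        have : (conjSub (((1 : G) : E) : E ⧸ N)) = id := funext conjSub_one
        rw [this, Set.image_id]
      mul_smul := fun g h σ => by
        apply Subtype.ext
        change conjSub (((g * h : G) : E) : E ⧸ N) '' σ.1 =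
          conjSub ((g : E) : E ⧸ N) '' (conjSub ((h : E) : E ⧸ N) '' σ.1)
        rw [← Set.image_comp]
        congr 1
        exact funext fun P => by
          rw [Subgroup.coe_mul, QuotientGroup.mk_mul, conjSub_mul]
          rfl }
  have hsm : ∀ (g : G) (σ : ChQ p G N), (g • σ).1 = conjSub ((g : E) : E ⧸ N) '' σ.1 :=
    fun _ _ => rfl
  have h := orbit_sum (G := G) (chQ p G N) (by
    intro σ τ
    change (∃ g ∈ G, τ.1 = conjSub ((g : E) : E ⧸ N) '' σ.1) ↔ _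
    constructor
    · rintro ⟨g, hG, hg⟩
      exact ⟨⟨g, hG⟩, Subtype.ext (by rw [hsm, hg])⟩
    · rintro ⟨g, hg⟩
      exact ⟨g, g.2, by rw [← hg, hsm]⟩)
    (fun σ => (-1) ^ σ.1.ncard * w σ.1) (by
      rintro σ τ ⟨g, hG, hg⟩
      change (-1) ^ σ.1.ncard * w σ.1 = (-1) ^ τ.1.ncard * w τ.1
      rw [hg, ncard_conj, hw g hG])
  unfold altQ
  rw [h]
  refine Finset.sum_congr rfl fun σ _ => ?_
  have hst : Nat.card (MulAction.stabilizer G σ) = Nat.card (GS G N σ.1) := by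
    refine Nat.card_congr
      { toFun := fun g => ⟨g.1.1, ?_⟩
        invFun := fun x => ⟨⟨x.1, x.2.1⟩, ?_⟩
        left_inv := fun g => rfl
        right_inv := fun x => rfl }
    · refine ⟨g.1.2, ?_⟩
      have h1 := g.2
      rw [MulAction.mem_stabilizer_iff, Subtype.ext_iff, hsm] at h1
      change ((g.1 : E) : E ⧸ N) ∈ chainStabilizer σ.1
      rw [mem_chainStabilizer]
      intro P hP
      have hgP : conjSub ((g.1 : E) : E ⧸ N) P ∈ σ.1 := by
        rw [← h1]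
        exact ⟨P, hP, rfl⟩
      have hcard : Nat.card (conjSub ((g.1 : E) : E ⧸ N) P) = Nat.card P :=
        Nat.card_congr (Subgroup.equivMapOfInjective _ _
          (MulAut.conj ((g.1 : E) : E ⧸ N)).injective).toEquiv.symm
      rcases σ.2.1.chain.total hgP hP with h4 | h4
      · exact Subgroup.eq_of_le_of_card_ge h4 hcard.ge
      · exact (Subgroup.eq_of_le_of_card_ge h4 hcard.le).symm
    · rw [MulAction.mem_stabilizer_iff, Subtype.ext_iff, hsm]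
      have h3 : ((x.1 : E) : E ⧸ N) ∈ chainStabilizer σ.1 := x.2.2
      rw [mem_chainStabilizer] at h3
      ext P
      constructor
      · rintro ⟨Q, hQ, rfl⟩
        have := h3 Q hQ
        change conjSub ((x.1 : E) : E ⧸ N) Q ∈ σ.1
        rw [this]
        exact hQ
      · intro hP
        exact ⟨P, hP, h3 P hP⟩
  rw [hst]
  ring

theorem sum_coset_left (f : E → ℂ) (x₀ : E) :
    ∑ x ∈ Finset.univ.filter (fun x : E => (x : E ⧸ N) = (x₀ : E ⧸ N)), f x =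
      ∑ n : N, f (x₀ * n) := by
  symm
  refine Finset.sum_bij (fun n _ => x₀ * n) ?_ ?_ ?_ ?_
  · intro n _
    rw [Finset.mem_filter]
    refine ⟨Finset.mem_univ _, ?_⟩
    rw [eq_comm, QuotientGroup.eq, inv_mul_cancel_left]
    exact n.2
  · intro n _ n' _ h
    exact Subtype.ext (mul_left_cancel h)
  · intro x hx
    rw [Finset.mem_filter, eq_comm, QuotientGroup.eq] at hx
    exact ⟨⟨_, hx.2⟩, Finset.mem_univ _, mul_inv_cancel_left _ _⟩
  · intro n _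
    rfl

theorem sum_coset_right (f : E → ℂ) (z₀ : E) :
    ∑ z ∈ Finset.univ.filter (fun z : E => (z : E ⧸ N) = (z₀ : E ⧸ N)), f z =
      ∑ n : N, f (n * z₀) := by
  symm
  refine Finset.sum_bij (fun n _ => n * z₀) ?_ ?_ ?_ ?_
  · intro n _
    rw [Finset.mem_filter]
    refine ⟨Finset.mem_univ _, ?_⟩
    rw [eq_comm, QuotientGroup.eq, ← mul_assoc]
    have := (inferInstance : N.Normal).conj_mem _ n.2 z₀⁻¹
    rwa [inv_inv] at this
  · intro n _ n' _ h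
    exact Subtype.ext (mul_right_cancel h)
  · intro x hx
    rw [Finset.mem_filter, eq_comm, QuotientGroup.eq] at hx
    have h1 := (inferInstance : N.Normal).conj_mem _ hx.2 z₀
    rw [mul_inv_cancel_left] at h1
    exact ⟨⟨_, h1⟩, Finset.mem_univ _, inv_mul_cancel_right _ _⟩
  · intro n _
    rfl

theorem coprime_m (s : ℂ ≃+* ℂ) (m : ℕ) (hs : ∀ ζ : ℂ, ζ ^ Nat.card E = 1 → s ζ = ζ ^ m) :
    Nat.Coprime m (Nat.card E) := by
  have hE : 0 < Nat.card E := Nat.card_pos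
  have hd0 : Nat.gcd m (Nat.card E) ≠ 0 := (Nat.gcd_pos_of_pos_right _ hE).ne'
  have hζ := Complex.isPrimitiveRoot_exp _ hd0
  set ζ := Complex.exp (2 * Real.pi * Complex.I / (Nat.gcd m (Nat.card E) : ℕ)) with hζdef
  have h1 : ζ ^ Nat.card E = 1 := (hζ.pow_eq_one_iff_dvd _).2 (Nat.gcd_dvd_right _ _)
  have h2 : ζ ^ m = 1 := (hζ.pow_eq_one_iff_dvd _).2 (Nat.gcd_dvd_left _ _)
  have h3 := hs ζ h1
  rw [h2] at h3
  have h4 : ζ = 1 := by
    apply s.injective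
    rw [h3, map_one]
  have h5 : ζ ^ 1 = 1 := by rw [h4, one_pow]
  have h6 := (hζ.pow_eq_one_iff_dvd 1).1 h5
  exact Nat.dvd_one.1 h6

theorem card_Gb (hNG : N ≤ G) : Nat.card G = Nat.card N * Nat.card (Gb G N) := by
  have h1 : (Gb G N).index = G.index := by
    unfold Gb
    rw [Subgroup.index_map, QuotientGroup.ker_mk', sup_eq_left.2 hNG,
      MonoidHom.range_eq_top.2 (QuotientGroup.mk'_surjective N), Subgroup.index_top, mul_one]
  have h2 := G.card_mul_index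
  have h3 := (Gb G N).card_mul_index
  have h4 := Subgroup.card_eq_card_quotient_mul_card_subgroup N
  rw [h1] at h3
  have h5 : G.index ≠ 0 := Subgroup.index_ne_zero_of_finite
  apply Nat.eq_of_mul_eq_mul_right (Nat.pos_of_ne_zero h5)
  rw [h2, h4, ← h3]
  ring

end fin

theorem t_ASM : S_CNT → S_COS → S_TOG → S_ASM := by
  intro hCNT hCOS hTOG E _ _ p _ G N _ _ hNG θ hθP hθG s m hs e he
  have hfi : Fintype (ChQ p G N) := Fintype.ofFinite _
  have hθI : IsIrr θ := by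
    obtain ⟨W, i1, i2, i3, ρ, h1, h2, -⟩ := hθP
    exact ⟨W, i1, i2, i3, ρ, h1, h2⟩
  have hcnt : ∀ σ : Set (Subgroup (E ⧸ N)), (Nat.card (GS G N σ) : ℂ) *
      (wQ G N θ e s σ : ℂ) = Fs G N θ m e σ :=
    fun σ => hCNT E G N hNG θ hθI hθG s m hs e he σ
  have hinv : ∀ g ∈ G, ∀ σ : Set (Subgroup (E ⧸ N)),
      ((wQ G N θ e s (conjSub (g : E ⧸ N) '' σ) : ℕ) : ℤ) = (wQ G N θ e s σ : ℤ) := by
    intro g hg σ
    have h1 := hcnt (conjSub (g : E ⧸ N) '' σ)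
    rw [Fs_conj hθG m e hg, ← hcnt σ, card_GS_conj hg] at h1
    have h2 : ((Nat.card (GS G N σ) : ℕ) : ℂ) ≠ 0 := by exact_mod_cast Nat.card_pos.ne'
    have h3 := mul_left_cancel₀ h2 h1
    exact_mod_cast h3
  have horb := orbit_altQ (G := G) (N := N) p (fun σ => ((wQ G N θ e s σ : ℕ) : ℤ)) hinv
  have hFQ : Fintype (E ⧸ N) := Fintype.ofFinite _
  -- the double sum over elements
  have hA : (((Nat.card G : ℤ) * altQ p G N (fun σ => ((wQ G N θ e s σ : ℕ) : ℤ)) : ℤ) : ℂ) =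
      ∑ z : E, ∑ x : E, if z * e⁻¹ ∈ G ∧ x ∈ G then
        FF N θ m x z * ((WC p (Gb G N) {(x : E ⧸ N), (z : E ⧸ N)} : ℤ) : ℂ) else 0 := by
    rw [horb, Int.cast_sum]
    have h1 : ∀ σ : ChQ p G N, (((-1) ^ σ.1.ncard * ((Nat.card (GS G N σ.1) : ℤ) *
        ((wQ G N θ e s σ.1 : ℕ) : ℤ)) : ℤ) : ℂ) =
        ∑ z : E, ∑ x : E, (-1) ^ σ.1.ncard * (if z * e⁻¹ ∈ G ∧ x ∈ G then
          FF N θ m x z * (if (x : E ⧸ N) ∈ chainStabilizer σ.1 ∧
            (z : E ⧸ N) ∈ chainStabilizer σ.1 then 1 else 0) else 0) := by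
      intro σ
      push_cast
      rw [hcnt σ.1]
      unfold Fs
      rw [Finset.mul_sum]
      refine Finset.sum_congr rfl fun z _ => ?_
      by_cases hz : z * e⁻¹ ∈ G ∧ (z : E ⧸ N) ∈ chainStabilizer σ.1
      · rw [if_pos hz, Finset.mul_sum]
        refine Finset.sum_congr rfl fun x _ => ?_
        congr 1
        by_cases hx : x ∈ GS G N σ.1
        · have hx' : x ∈ G ∧ (x : E ⧸ N) ∈ chainStabilizer σ.1 := hx
          rw [if_pos hx, if_pos ⟨hz.1, hx'.1⟩, if_pos ⟨hx'.2, hz.2⟩, mul_one]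
        · rw [if_neg hx]
          by_cases hxG : x ∈ G
          · rw [if_pos ⟨hz.1, hxG⟩, if_neg (fun h => hx ⟨hxG, h.1⟩), mul_zero]
          · rw [if_neg (fun h => hxG h.2)]
      · rw [if_neg hz, mul_zero]
        symm
        apply Finset.sum_eq_zero
        intro x _
        split_ifs with h2 h3
        · exact absurd ⟨h2.1, h3.2⟩ hz
        · rw [mul_zero, mul_zero]
        · rw [mul_zero]
    rw [Finset.sum_congr rfl fun σ _ => h1 σ, Finset.sum_comm]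
    refine Finset.sum_congr rfl fun z _ => ?_
    rw [Finset.sum_comm]
    refine Finset.sum_congr rfl fun x _ => ?_
    by_cases h2 : z * e⁻¹ ∈ G ∧ x ∈ G
    · simp only [if_pos h2]
      rw [WC_eq (G := G) p, Int.cast_sum, Finset.mul_sum]
      refine Finset.sum_congr rfl fun σ _ => ?_
      push_cast
      ring
    · simp only [if_neg h2, mul_zero, Finset.sum_const_zero]
  -- cosets
  have hB : (∑ z : E, ∑ x : E, if z * e⁻¹ ∈ G ∧ x ∈ G then
        FF N θ m x z * ((WC p (Gb G N) {(x : E ⧸ N), (z : E ⧸ N)} : ℤ) : ℂ) else 0) =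
      ∑ b : E ⧸ N, ∑ a : E ⧸ N, if b * (e : E ⧸ N)⁻¹ ∈ Gb G N ∧ a ∈ Gb G N then
        ((WC p (Gb G N) {a, b} : ℤ) : ℂ) *
          ∑ z ∈ Finset.univ.filter (fun z : E => (z : E ⧸ N) = b),
            ∑ x ∈ Finset.univ.filter (fun x : E => (x : E ⧸ N) = a), FF N θ m x z else 0 := by
    rw [← Finset.sum_fiberwise Finset.univ (fun z : E => (z : E ⧸ N))]
    refine Finset.sum_congr rfl fun b _ => ?_
    have h1 : ∀ z ∈ Finset.univ.filter (fun z : E => (z : E ⧸ N) = b),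
        (∑ x : E, if z * e⁻¹ ∈ G ∧ x ∈ G then
          FF N θ m x z * ((WC p (Gb G N) {(x : E ⧸ N), (z : E ⧸ N)} : ℤ) : ℂ) else 0) =
        ∑ a : E ⧸ N, ∑ x ∈ Finset.univ.filter (fun x : E => (x : E ⧸ N) = a),
          if b * (e : E ⧸ N)⁻¹ ∈ Gb G N ∧ a ∈ Gb G N then
            ((WC p (Gb G N) {a, b} : ℤ) : ℂ) * FF N θ m x z else 0 := by
      intro z hz
      rw [Finset.mem_filter] at hz
      rw [← Finset.sum_fiberwise Finset.univ (fun x : E => (x : E ⧸ N))]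
      refine Finset.sum_congr rfl fun a _ => ?_
      refine Finset.sum_congr rfl fun x hx => ?_
      rw [Finset.mem_filter] at hx
      have h2 : (z * e⁻¹ ∈ G ∧ x ∈ G) ↔ (b * (e : E ⧸ N)⁻¹ ∈ Gb G N ∧ a ∈ Gb G N) := by
        rw [← hz.2, ← hx.2, ← QuotientGroup.mk_inv, ← QuotientGroup.mk_mul, mk_mem_Gb hNG,
          mk_mem_Gb hNG]
      by_cases h3 : z * e⁻¹ ∈ G ∧ x ∈ G
      · rw [if_pos h3, if_pos (h2.1 h3), hz.2, hx.2, mul_comm]
      · rw [if_neg h3, if_neg (fun h => h3 (h2.2 h))]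
    rw [Finset.sum_congr rfl h1, Finset.sum_comm]
    refine Finset.sum_congr rfl fun a _ => ?_
    split_ifs with h2
    · rw [Finset.mul_sum]
      refine Finset.sum_congr rfl fun z _ => ?_
      rw [Finset.mul_sum]
    · simp
  -- the sum over two cosets
  have hC : ∀ a b : E ⧸ N, (if b * (e : E ⧸ N)⁻¹ ∈ Gb G N ∧ a ∈ Gb G N then
        ((WC p (Gb G N) {a, b} : ℤ) : ℂ) *
          ∑ z ∈ Finset.univ.filter (fun z : E => (z : E ⧸ N) = b),
            ∑ x ∈ Finset.univ.filter (fun x : E => (x : E ⧸ N) = a), FF N θ m x z else 0) =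
      (Nat.card N : ℂ) * (((if a ∈ Gb G N ∧ b * (e : E ⧸ N)⁻¹ ∈ Gb G N ∧
        b * a ^ m * b⁻¹ = a ∧ ¬ p ∣ orderOf a then WC p (Gb G N) {a, b} else 0 : ℤ)) : ℂ) := by
    intro a b
    obtain ⟨x₀, rfl⟩ := QuotientGroup.mk_surjective a
    obtain ⟨z₀, rfl⟩ := QuotientGroup.mk_surjective b
    by_cases h1 : (z₀ : E ⧸ N) * (e : E ⧸ N)⁻¹ ∈ Gb G N ∧ (x₀ : E ⧸ N) ∈ Gb G N
    swap
    · rw [if_neg h1, if_neg (fun h => h1 ⟨h.2.1, h.1⟩), Int.cast_zero, mul_zero]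
    rw [if_pos h1]
    have hzG : z₀ * e⁻¹ ∈ G := by
      rw [← mk_mem_Gb hNG, QuotientGroup.mk_mul, QuotientGroup.mk_inv]
      exact h1.1
    have hxG : x₀ ∈ G := (mk_mem_Gb hNG x₀).1 h1.2
    have hmem : ∀ x z : E, (x : E ⧸ N) = (x₀ : E ⧸ N) → (z : E ⧸ N) = (z₀ : E ⧸ N) →
        (x⁻¹ * z * x ^ m * z⁻¹ ∈ N ↔
          (z₀ : E ⧸ N) * (x₀ : E ⧸ N) ^ m * (z₀ : E ⧸ N)⁻¹ = (x₀ : E ⧸ N)) := by
      intro x z hx hz
      rw [← QuotientGroup.eq_one_iff (N := N), QuotientGroup.mk_mul, QuotientGroup.mk_mul,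
        QuotientGroup.mk_mul, QuotientGroup.mk_inv, QuotientGroup.mk_inv, QuotientGroup.mk_pow,
        hx, hz, mul_assoc, mul_assoc, inv_mul_eq_one, eq_comm, mul_assoc]
    by_cases h2 : (z₀ : E ⧸ N) * (x₀ : E ⧸ N) ^ m * (z₀ : E ⧸ N)⁻¹ = (x₀ : E ⧸ N)
    swap
    · rw [if_neg (fun h => h2 h.2.2.1), Int.cast_zero, mul_zero]
      have h3 : ∑ z ∈ Finset.univ.filter (fun z : E => (z : E ⧸ N) = (z₀ : E ⧸ N)),
          ∑ x ∈ Finset.univ.filter (fun x : E => (x : E ⧸ N) = (x₀ : E ⧸ N)),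
            FF N θ m x z = 0 := by
        apply Finset.sum_eq_zero
        intro z hz
        apply Finset.sum_eq_zero
        intro x hx
        rw [Finset.mem_filter] at hz hx
        unfold FF
        rw [dif_neg (fun h => h2 ((hmem x z hx.2 hz.2).1 h)), mul_zero]
      rw [h3, mul_zero]
    by_cases h3 : p ∣ orderOf (x₀ : E ⧸ N)
    · rw [if_neg (fun h => h.2.2.2 h3), Int.cast_zero, mul_zero]
      have hn : (Gb G N).Normal :=
        Subgroup.Normal.map inferInstance _ (QuotientGroup.mk'_surjective N)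
      have h4 := hTOG (E ⧸ N) p (Gb G N) (x₀ : E ⧸ N) (z₀ : E ⧸ N) m h1.2 (by
        intro P hP x hx
        rw [mem_conjSub] at hx
        have h5 := hn.conj_mem _ (hP hx) (z₀ : E ⧸ N)
        have h6 : (z₀ : E ⧸ N) * ((z₀ : E ⧸ N)⁻¹ * x * (z₀ : E ⧸ N)) * (z₀ : E ⧸ N)⁻¹ = x := by
          group
        rwa [h6] at h5) (by
        refine Nat.Coprime.coprime_dvd_right ?_ (coprime_m (E := E) s m hs)
        refine (orderOf_dvd_natCard (x₀ : E ⧸ N)).trans ?_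
        exact Subgroup.card_quotient_dvd_card N) h2 h3
      rw [h4, Int.cast_zero, zero_mul]
    · rw [if_pos ⟨h1.2, h1.1, h2, h3⟩, mul_comm]
      congr 1
      rw [sum_coset_right]
      have h4 : ∀ n' : N, ∑ x ∈ Finset.univ.filter (fun x : E => (x : E ⧸ N) = (x₀ : E ⧸ N)),
          FF N θ m x (n' * z₀) = ∑ n : N, FF N θ m (x₀ * n) (n' * z₀) := fun n' =>
        sum_coset_left (fun x => FF N θ m x (n' * z₀)) x₀
      rw [Finset.sum_congr rfl fun n' _ => h4 n', Finset.sum_comm]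
      refine hCOS E p G N hNG θ hθP hθG s m hs z₀ ?_ x₀ hxG ?_ h3
      · intro n n' hn
        have h5 : e * n * e⁻¹ ∈ N := (inferInstance : N.Normal).conj_mem _ n.2 e
        have h6 := he n ⟨_, h5⟩ rfl
        have h7 := hθG (z₀ * e⁻¹) hzG ⟨_, h5⟩ n' (by
          rw [hn]
          change z₀ * n * z₀⁻¹ = z₀ * e⁻¹ * (e * n * e⁻¹) * (z₀ * e⁻¹)⁻¹
          group)
        rw [h7, h6]
      · exact (hmem x₀ z₀ rfl rfl).2 h2
  -- conclusion
  have hN0 : ((Nat.card N : ℕ) : ℂ) ≠ 0 := by exact_mod_cast Nat.card_pos.ne'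
  rw [finsum_eq_sum_of_fintype, Fintype.sum_prod_type]
  have hD : ((Nat.card N : ℕ) : ℂ) * (((Nat.card (Gb G N) : ℤ) *
      altQ p G N (fun σ => ((wQ G N θ e s σ : ℕ) : ℤ)) : ℤ) : ℂ) =
      (Nat.card N : ℂ) * ((∑ a : E ⧸ N, ∑ b : E ⧸ N, (if a ∈ Gb G N ∧
        b * (e : E ⧸ N)⁻¹ ∈ Gb G N ∧
        b * a ^ m * b⁻¹ = a ∧ ¬ p ∣ orderOf a then WC p (Gb G N) {a, b} else 0 : ℤ) : ℤ) : ℂ) := by
    have h1 : ((Nat.card N : ℕ) : ℂ) * (((Nat.card (Gb G N) : ℤ) *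
        altQ p G N (fun σ => ((wQ G N θ e s σ : ℕ) : ℤ)) : ℤ) : ℂ) =
        (((Nat.card G : ℤ) * altQ p G N (fun σ => ((wQ G N θ e s σ : ℕ) : ℤ)) : ℤ) : ℂ) := by
      rw [card_Gb hNG]
      push_cast
      ring
    rw [h1, hA, hB]
    rw [Finset.sum_comm, Int.cast_sum, Finset.mul_sum]
    refine Finset.sum_congr rfl fun a _ => ?_
    rw [Int.cast_sum, Finset.mul_sum]
    exact Finset.sum_congr rfl fun b _ => hC a b
  have hE := mul_left_cancel₀ hN0 hD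
  exact_mod_cast hE

end Pool.Agent.Q150.TP
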